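import Mathlib
import Pool.Agent.Helper226.Final

set_option autoImplicit false

open scoped TensorProduct
open CategoryTheory AlgebraicGeometry

universe u

namespace Pool.Agent.Results.MP_d4b31a_ag.SmallComponent

/-- The set of `R`-valued points of the Hilbert functor of `d` points on the affine `k`-scheme
`Spec B`: closed subschemes of `Spec B × Spec R = Spec (R ⊗ B)`, that is ideals `I` of `R ⊗ B`,
which are finite and locally free of constant rank `d` over `Spec R`. -/
def HilbFamily (k : Type u) [Field k] (B : Type u) [CommRing B] [Algebra k B] (d : ℕ)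
    (R : Type u) [CommRing R] [Algebra k R] : Set (Ideal (R ⊗[k] B)) :=
  {I | Module.Finite R ((R ⊗[k] B) ⧸ I) ∧ Module.Projective R ((R ⊗[k] B) ⧸ I) ∧
    ∀ p : PrimeSpectrum R, Module.rankAtStalk (R := R) ((R ⊗[k] B) ⧸ I) p = d}

/-- The `R`-valued points of a `k`-scheme `s : H ⟶ Spec k`. -/
def PointsOver (k : Type u) [Field k] (H : Scheme.{u}) (s : H ⟶ Spec (CommRingCat.of k))
    (R : Type u) [CommRing R] [Algebra k R] : Type u :=
  {f : Spec (CommRingCat.of R) ⟶ H // f ≫ s = Spec.map (CommRingCat.ofHom (algebraMap k R))}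

/-- The `k`-scheme `s : H ⟶ Spec k` is the Hilbert scheme of `d` points of `Spec B`: for every
`k`-algebra `R` there is a bijection from the `R`-valued points of `H` to the families of length
`d` closed subschemes of `Spec B` over `Spec R`, and these bijections are natural in `R`, the base
change of an ideal along `g : R → R'` being its extension along `R ⊗ B → R' ⊗ B`. -/
def IsHilbertScheme (k : Type u) [Field k] (B : Type u) [CommRing B] [Algebra k B] (d : ℕ)
    (H : Scheme.{u}) (s : H ⟶ Spec (CommRingCat.of k)) : Prop :=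
  ∃ Φ : ∀ (R : Type u) [CommRing R] [Algebra k R], PointsOver k H s R ≃ HilbFamily k B d R,
    ∀ (R R' : Type u) [CommRing R] [Algebra k R] [CommRing R'] [Algebra k R'] (g : R →ₐ[k] R')
      (f : PointsOver k H s R) (f' : PointsOver k H s R'),
      f'.1 = Spec.map (CommRingCat.ofHom g.toRingHom) ≫ f.1 →
        (Φ R' f').1 = (Φ R f).1.map (Algebra.TensorProduct.map g (AlgHom.id k B))

/-- Hilbert schemes of points of affine schemes exist. -/
theorem isHilbertScheme_hilbS (k : Type u) [Field k] (B : Type u) [CommRing B] [Algebra k B]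
    (d : ℕ) : IsHilbertScheme k B d (Helper226.HilbS k B d) (Helper226.HilbS.str k B d) := by
  refine ⟨fun R _ _ => (Helper226.homEquiv k R).trans
    (Equiv.subtypeEquivRight fun I => ⟨fun h => h.spec, fun h =>
      Helper226.locBas_of_spec h.1 h.2.1 h.2.2⟩), ?_⟩
  intro R R' _ _ _ _ g f f' h
  have hstr : (Spec.map (CommRingCat.ofHom g.toRingHom) ≫ f.1) ≫ Helper226.HilbS.str k B d =
      Spec.map (CommRingCat.ofHom (algebraMap k R')) := by
    rw [← h]
    exact f'.2
  have h1 : f' = ⟨_, hstr⟩ := Subtype.ext h
  rw [h1]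
  exact Helper226.homEquiv_natural k g f hstr

/-- Over every algebraically closed field there is an integral affine curve `Spec B` and a `d`
whose Hilbert scheme of `d` points has an irreducible component of dimension less than `d`. -/
theorem result (k : Type u) [Field k] [IsAlgClosed k] :
    ∃ (B : Type u) (_ : CommRing B) (_ : Algebra k B),
      IsDomain B ∧ Algebra.FiniteType k B ∧ ringKrullDim B = 1 ∧
      ∃ d : ℕ, 1 ≤ d ∧ ∃ (H : Scheme.{u}) (s : H ⟶ Spec (CommRingCat.of k)),
        IsHilbertScheme k B d H s ∧
        ∃ Y ∈ irreducibleComponents H, topologicalKrullDim Y < (d : WithBot ℕ∞) := by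
  obtain ⟨Y, hY, hdim⟩ := Helper226.small_component k
  exact ⟨Helper226.CB k, inferInstance, inferInstance, inferInstance,
    Helper226.curve_finiteType k, Helper226.curve_dim k, 10, by norm_num,
    Helper226.HilbS k (Helper226.CB k) 10, Helper226.HilbS.str k (Helper226.CB k) 10,
    isHilbertScheme_hilbS k (Helper226.CB k) 10, Y, hY, lt_of_le_of_lt hdim (by norm_num)⟩

end Pool.Agent.Results.MP_d4b31a_ag.SmallComponent
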